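import Pool.Agent.W_7d29a1_F.DdC
import Pool.Agent.W_7d29a1_F.Bridge2

/-!
ROW 622, unit free: THE EDGE AT ONE SCALE. Slabs of length `L'`, cells of width `w`, connections of length `S`
whose displacements `y0 + r`, `0 ≤ r < w`, are cheap in the mean; `N = S + L' + S`. With the exponential tail of
the fractional moments at the time `N` (`tail`) and the price beyond the slope `v` (`out`):

* `inner`: if the slope `v` is cheap (`¬ Dec`), then some displacement `z ≥ v N - C w` of time `N` has mean cost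
  at most `K / θ`;
* `wall`: the probability that some path crosses the slab from `x ≤ 0` to `x' ≥ v L' + A' w` with a weight at
  least `exp (- c A' / θ)` is at most `C exp (- c A')` (all starts, all ends).
-/

namespace Pool.Agent.W_7d29a1_h75g

open MeasureTheory ProbabilityTheory Filter Topology
open Pool.Agent.W_7d29a1_F

noncomputable section

/-! ### Geometric sums -/

theorem geom_le {x : ℝ} (h0 : 0 ≤ x) (h1 : x < 1) (N : ℕ) :
    ∑ j ∈ Finset.range N, x ^ j ≤ 1 / (1 - x) := by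
  rw [le_div_iff₀ (by linarith)]
  have h2 := geom_sum_mul_neg x N
  have h3 : 0 ≤ x ^ N := pow_nonneg h0 N
  linarith

theorem sum_abs_le {c : ℝ} (r : ℝ) (hc : 0 < c) (N : ℕ) :
    ∑ j ∈ Finset.range N, Real.exp (-(c * |r + j|)) ≤ 2 / (1 - Real.exp (-c)) := by
  obtain ⟨m, hm1, hm2⟩ : ∃ m : ℕ, 0 ≤ r + m ∧ ∀ i : ℕ, i < m → r + i < 0 := by
    have hex : ∃ m : ℕ, 0 ≤ r + m := by
      obtain ⟨m, hm⟩ := exists_nat_ge (-r)
      exact ⟨m, by linarith⟩
    classical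
    exact ⟨Nat.find hex, Nat.find_spec hex, fun i hi => not_le.1 (Nat.find_min hex hi)⟩
  set f : ℕ → ℝ := fun j => Real.exp (-(c * |r + j|)) with hf
  have hx0 : 0 ≤ Real.exp (-c) := (Real.exp_pos _).le
  have hx1 : Real.exp (-c) < 1 := by
    rw [← Real.exp_zero]
    exact Real.exp_lt_exp.2 (by linarith)
  have hpow : ∀ j : ℕ, Real.exp (-c) ^ j = Real.exp (-(c * j)) := by
    intro j
    rw [← Real.exp_nat_mul]
    congr 1
    ring
  have h1 : ∑ j ∈ Finset.range N, f j ≤ ∑ j ∈ Finset.range (m + N), f j :=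
    Finset.sum_le_sum_of_subset_of_nonneg (Finset.range_mono (by omega)) fun j _ _ =>
      (Real.exp_pos _).le
  rw [Finset.sum_range_add] at h1
  have h2 : ∑ j ∈ Finset.range m, f j ≤ 1 / (1 - Real.exp (-c)) := by
    rw [← Finset.sum_range_reflect]
    refine le_trans (Finset.sum_le_sum fun j hj => ?_) (geom_le hx0 hx1 m)
    have hj' := Finset.mem_range.1 hj
    rw [hf, hpow]
    refine Real.exp_le_exp.2 (neg_le_neg ?_)
    refine mul_le_mul_of_nonneg_left ?_ hc.le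
    have h3 := hm2 (m - 1) (by omega)
    have h4 : ((m - 1 - j : ℕ) : ℝ) = ((m - 1 : ℕ) : ℝ) - j := by
      rw [Nat.cast_sub (by omega)]
    rw [h4]
    have h6 : r + (((m - 1 : ℕ) : ℝ) - j) ≤ -j := by linarith
    exact le_trans (by linarith) (neg_le_abs _)
  have h3 : ∑ j ∈ Finset.range N, f (m + j) ≤ 1 / (1 - Real.exp (-c)) := by
    refine le_trans (Finset.sum_le_sum fun j _ => ?_) (geom_le hx0 hx1 N)
    rw [hf, hpow]
    refine Real.exp_le_exp.2 (neg_le_neg ?_)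
    refine mul_le_mul_of_nonneg_left ?_ hc.le
    refine le_trans ?_ (le_abs_self _)
    push_cast
    linarith
  calc ∑ j ∈ Finset.range N, Real.exp (-(c * |r + j|)) = ∑ j ∈ Finset.range N, f j := rfl
    _ ≤ 1 / (1 - Real.exp (-c)) + 1 / (1 - Real.exp (-c)) := by linarith
    _ = 2 / (1 - Real.exp (-c)) := by ring

/-! ### The hypotheses -/

/-- The edge at one scale: slope `v`, slabs of length `L'`, cells of width `w`, connections of length `S` with
the reference displacement `y0`; unit of costs `1 / θ`. -/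
structure EdgeHyp (μ : Measure ℝ) (s θ v κ Δ C1 : ℝ) (w S L' : ℕ) (y0 : ℤ) : Prop where
  θ0 : 0 < θ
  θ1 : θ ≤ 1
  w1 : 1 ≤ w
  L1 : 1 ≤ L'
  con : ∀ r : ℤ, 0 ≤ r → r < w → 0 ≤ y0 + r ∧ y0 + r ≤ S ∧ θ * e μ s S (y0 + r) ≤ 1
  shift : |2 * (y0 : ℝ) + w - 1 - 2 * v * S| ≤ κ * w
  tail : ∀ z : ℤ, 0 ≤ z → z ≤ ((S + L' + S : ℕ) : ℤ) →
    ∫ η, W μ s η 0 (S + L' + S) z ^ θ ∂(law μ) ≤
      C1 * Real.exp (-(θ * e μ s (S + L' + S) z / 2))
  out : ∀ (z : ℤ) (ρ : ℝ), 1 ≤ ρ → v * ((S + L' + S : ℕ) : ℝ) + ρ * w ≤ z →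
    z ≤ ((S + L' + S : ℕ) : ℤ) → Δ * ρ ≤ θ * e μ s (S + L' + S) z

/-- The end of the connection behind the cell `j`. -/
def zc (w : ℕ) (y0 j : ℤ) : ℤ := j * w + 2 * y0 + w - 1

variable {μ : Measure ℝ} [IsProbabilityMeasure μ] {s θ v κ Δ C1 : ℝ} {w S L' : ℕ} {y0 : ℤ}

omit [IsProbabilityMeasure μ] in
theorem EdgeHyp.near (H : EdgeHyp μ s θ v κ Δ C1 w S L' y0) (j : ℤ) :
    |(zc w y0 j : ℝ) - v * ((S + L' + S : ℕ) : ℝ) - (j * w - v * L')| ≤ κ * w := by
  have h := H.shift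
  have h2 : (zc w y0 j : ℝ) - v * ((S + L' + S : ℕ) : ℝ) - (j * w - v * L') =
      2 * (y0 : ℝ) + w - 1 - 2 * v * S := by
    unfold zc
    push_cast
    ring
  rw [h2]
  exact h

theorem EdgeHyp.psi_le (H : EdgeHyp μ s θ v κ Δ C1 w S L' y0)
    (hμ : Pool.Agent.W_7d29a1_h47.EM μ) (j : ℤ) :
    Psi μ s θ (S + L') w y0 j ≤
      Real.exp 1 * ∫ η, W μ s η 0 (S + L' + S) (zc w y0 j) ^ θ ∂(law μ) := by
  have h := cell_to_point (μ := μ) (s := s) hμ H.θ0 H.θ1 (n := S + L') H.w1 H.con j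
  have h2 : Real.exp 1 * (Real.exp (-1) * Psi μ s θ (S + L') w y0 j) ≤
      Real.exp 1 * ∫ η, W μ s η 0 (S + L' + S) (zc w y0 j) ^ θ ∂(law μ) :=
    mul_le_mul_of_nonneg_left h (Real.exp_pos 1).le
  rw [← mul_assoc, ← Real.exp_add] at h2
  simpa using h2

theorem EdgeHyp.psi_zero (H : EdgeHyp μ s θ v κ Δ C1 w S L' y0)
    (hμ : Pool.Agent.W_7d29a1_h47.EM μ) (j : ℤ)
    (hz : ¬ (0 ≤ zc w y0 j ∧ zc w y0 j ≤ ((S + L' + S : ℕ) : ℤ))) :
    Psi μ s θ (S + L') w y0 j ≤ 0 := by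
  refine (H.psi_le hμ j).trans ?_
  have h1 : ∀ η : Env, W μ s η 0 (S + L' + S) (zc w y0 j) ^ θ = 0 := by
    intro η
    rw [W_eq_zero η 0 hz, Real.zero_rpow H.θ0.ne']
  simp only [h1, integral_zero, mul_zero, le_refl]

theorem EdgeHyp.psi_in (H : EdgeHyp μ s θ v κ Δ C1 w S L' y0)
    (hμ : Pool.Agent.W_7d29a1_h47.EM μ) (j : ℤ) (h0 : 0 ≤ zc w y0 j)
    (h1 : zc w y0 j ≤ ((S + L' + S : ℕ) : ℤ)) :
    Psi μ s θ (S + L') w y0 j ≤
      Real.exp 1 * C1 * Real.exp (-(θ * e μ s (S + L' + S) (zc w y0 j) / 2)) := by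
  refine (H.psi_le hμ j).trans ?_
  rw [mul_assoc]
  exact mul_le_mul_of_nonneg_left (H.tail _ h0 h1) (Real.exp_pos 1).le

theorem EdgeHyp.psi_far (H : EdgeHyp μ s θ v κ Δ C1 w S L' y0) (hC1 : 0 ≤ C1)
    (hμ : Pool.Agent.W_7d29a1_h47.EM μ) (j : ℤ) {ρ : ℝ} (hρ : 1 ≤ ρ)
    (hz : v * ((S + L' + S : ℕ) : ℝ) + ρ * w ≤ zc w y0 j) :
    Psi μ s θ (S + L') w y0 j ≤ Real.exp 1 * C1 * Real.exp (-(Δ * ρ / 2)) := by
  by_cases h : 0 ≤ zc w y0 j ∧ zc w y0 j ≤ ((S + L' + S : ℕ) : ℤ)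
  · refine (H.psi_in hμ j h.1 h.2).trans ?_
    refine mul_le_mul_of_nonneg_left (Real.exp_le_exp.2 ?_) (by positivity)
    have := H.out _ ρ hρ hz h.2
    linarith
  · exact (H.psi_zero hμ j h).trans (by positivity)

/-! ### The inner edge -/

theorem inner {A C1 Δ κ : ℝ} (hA : 0 ≤ A) (hC1 : 0 ≤ C1) (hΔ : 0 < Δ) (hκ : 0 ≤ κ) :
    ∃ C K : ℝ, 0 ≤ C ∧ 0 ≤ K ∧ ∀ (μ : Measure ℝ) [IsProbabilityMeasure μ] (s : ℝ),
      Pool.Agent.W_7d29a1_h47.EM μ → ∀ (θ v γ : ℝ) (w S L' : ℕ) (y0 : ℤ),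
      EdgeHyp μ s θ v κ Δ C1 w S L' y0 → γ * L' ≤ A → ¬ Dec μ s θ v γ →
      ∃ z : ℤ, 0 ≤ z ∧ z ≤ ((S + L' + S : ℕ) : ℤ) ∧ v * ((S + L' + S : ℕ) : ℝ) - C * w ≤ z ∧
        θ * e μ s (S + L' + S) z ≤ K := by
  obtain ⟨s0, hs0⟩ : ∃ s0 : ℝ, s0 = Δ / 4 := ⟨_, rfl⟩
  have hs0p : 0 < s0 := by rw [hs0]; positivity
  obtain ⟨G, hG⟩ : ∃ G : ℝ, G = 2 / (1 - Real.exp (-(s0 / 2))) := ⟨_, rfl⟩
  have hx1 : Real.exp (-(s0 / 2)) < 1 := by
    rw [← Real.exp_zero]
    exact Real.exp_lt_exp.2 (by linarith)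
  have hG0 : 0 < G := by rw [hG]; exact div_pos two_pos (by linarith)
  obtain ⟨Bc, hBc⟩ : ∃ Bc : ℝ, Bc = Real.exp 1 * (Real.exp 1 * C1) * G * Real.exp (2 * s0 * κ) :=
    ⟨_, rfl⟩
  have hBc0 : 0 ≤ Bc := by rw [hBc]; positivity
  obtain ⟨X, hX⟩ : ∃ X : ℝ, X = A + Real.log (4 * (Bc + 1)) := ⟨_, rfl⟩
  have hlog : 0 ≤ Real.log (4 * (Bc + 1)) := Real.log_nonneg (by linarith)
  have hX0 : 0 ≤ X := by rw [hX]; linarith
  have hXe : Bc * Real.exp (-X) ≤ Real.exp (-A) / 4 := by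
    have h1 : Real.exp (-X) = Real.exp (-A) / (4 * (Bc + 1)) := by
      rw [hX, neg_add, Real.exp_add, Real.exp_neg (Real.log _), Real.exp_log (by linarith),
        div_eq_mul_inv]
    rw [h1, mul_div_assoc', div_le_div_iff₀ (by linarith) (by norm_num)]
    have := Real.exp_pos (-A)
    linarith
  obtain ⟨C5, hC5⟩ : ∃ C5 : ℝ, C5 = 2 * X / s0 := ⟨_, rfl⟩
  have hC50 : 0 ≤ C5 := by rw [hC5]; positivity
  have hC5s : s0 / 2 * C5 = X := by
    rw [hC5]
    field_simp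
  obtain ⟨R, hR⟩ : ∃ R : ℝ, R = 2 * κ + 1 + C5 := ⟨_, rfl⟩
  obtain ⟨C, hC⟩ : ∃ C : ℝ, C = C5 + κ := ⟨_, rfl⟩
  obtain ⟨Q, hQ⟩ : ∃ Q : ℝ, Q = C + R + κ := ⟨_, rfl⟩
  have hQ0 : 0 ≤ Q := by rw [hQ, hC, hR]; linarith
  obtain ⟨K, hK⟩ : ∃ K : ℝ, K = 2 * X + 3 * s0 * Q := ⟨_, rfl⟩
  have hK0 : 0 ≤ K := by rw [hK]; positivity
  refine ⟨C, K, by rw [hC]; linarith, hK0, ?_⟩
  intro μ _ s hμ θ v γ w S L' y0 H hγ hD
  by_contra hcon
  push Not at hcon
  have hw : (0 : ℝ) < w := by exact_mod_cast H.w1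
  have hcell := cell (μ := μ) (s := s) hμ H.θ0 H.θ1 (σ := s0 / w) (by positivity) H.w1 H.L1 H.con hD
  have hterm : ∀ j ∈ Finset.range (L' + 1),
      Real.exp (s0 / w * (j * w - v * L')) * Psi μ s θ (S + L') w y0 j ≤
        Real.exp 1 * C1 * (Real.exp (2 * s0 * κ) * Real.exp (-X)) *
          Real.exp (-(s0 / 2 * |-(v * L' / w) + j|)) := by
    intro j _
    obtain ⟨u, hu⟩ : ∃ u : ℝ, u = -(v * L' / w) + j := ⟨_, rfl⟩
    have huw : u * w = j * w - v * L' := by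
      rw [hu]
      field_simp
      try ring
    have hsu : s0 / w * (j * w - v * L') = s0 * u := by
      rw [← huw]
      field_simp
    rw [hsu, ← hu]
    have hrhs : Real.exp 1 * C1 * (Real.exp (2 * s0 * κ) * Real.exp (-X)) *
          Real.exp (-(s0 / 2 * |u|)) =
        Real.exp 1 * C1 * Real.exp (2 * s0 * κ - X - s0 / 2 * |u|) := by
      rw [← Real.exp_add, mul_assoc, ← Real.exp_add]
      congr 2
    rw [hrhs]
    have heC : 0 ≤ Real.exp 1 * C1 := by positivity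
    have hsκ : 0 ≤ 2 * s0 * κ := by positivity
    -- reduction to an exponent
    have key : ∀ y : ℝ, Psi μ s θ (S + L') w y0 (j : ℤ) ≤ Real.exp 1 * C1 * Real.exp (-y) →
        s0 * u - y ≤ 2 * s0 * κ - X - s0 / 2 * |u| →
        Real.exp (s0 * u) * Psi μ s θ (S + L') w y0 (j : ℤ) ≤
          Real.exp 1 * C1 * Real.exp (2 * s0 * κ - X - s0 / 2 * |u|) := by
      intro y h1 h2
      calc Real.exp (s0 * u) * Psi μ s θ (S + L') w y0 (j : ℤ)
          ≤ Real.exp (s0 * u) * (Real.exp 1 * C1 * Real.exp (-y)) :=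
            mul_le_mul_of_nonneg_left h1 (Real.exp_pos _).le
        _ = Real.exp 1 * C1 * Real.exp (s0 * u - y) := by
            rw [sub_eq_add_neg, Real.exp_add]
            ring
        _ ≤ _ := mul_le_mul_of_nonneg_left (Real.exp_le_exp.2 h2) heC
    have hnear := abs_le.1 (H.near (j : ℤ))
    have hn1 : (zc w y0 j : ℝ) - v * ((S + L' + S : ℕ) : ℝ) ≤ (u + κ) * w := by
      have := hnear.2
      push_cast at this ⊢
      linarith
    have hn2 : (u - κ) * w ≤ (zc w y0 j : ℝ) - v * ((S + L' + S : ℕ) : ℝ) := by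
      have := hnear.1
      push_cast at this ⊢
      linarith
    by_cases hz : 0 ≤ zc w y0 j ∧ zc w y0 j ≤ ((S + L' + S : ℕ) : ℤ)
    · rcases lt_or_ge (zc w y0 j : ℝ) (v * ((S + L' + S : ℕ) : ℝ) - C * w) with h1 | h1
      · -- far on the left
        have h2 : (u - κ) * w < (-C) * w := by linarith
        have h3 : u - κ < -C := lt_of_mul_lt_mul_right h2 hw.le
        have h4 : u < -C5 := by rw [hC] at h3; linarith
        refine key 0 ?_ ?_
        · refine (H.psi_in hμ _ hz.1 hz.2).trans ?_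
          refine mul_le_mul_of_nonneg_left (Real.exp_le_exp.2 ?_) heC
          have h5 := e_nonneg hμ s hz.1 hz.2
          have h6 : 0 ≤ θ * e μ s (S + L' + S) (zc w y0 j) := mul_nonneg H.θ0.le h5
          linarith
        · rw [abs_of_neg (by linarith)]
          have h5 : s0 / 2 * u ≤ s0 / 2 * (-C5) := mul_le_mul_of_nonneg_left h4.le (by linarith)
          linarith
      · rcases le_or_gt (zc w y0 j : ℝ) (v * ((S + L' + S : ℕ) : ℝ) + R * w) with h2 | h2
        · -- the middle: the displacement is not cheap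
          have h3 := hcon _ hz.1 hz.2 h1
          have h4 : (u - κ) * w ≤ R * w := by linarith
          have h5 : u - κ ≤ R := le_of_mul_le_mul_right h4 hw
          have h6 : (-C) * w ≤ (u + κ) * w := by linarith
          have h7 : -C ≤ u + κ := le_of_mul_le_mul_right h6 hw
          have hC' : 0 ≤ C := by rw [hC]; linarith
          have hR' : 0 ≤ R := by rw [hR]; linarith
          have h8 : |u| ≤ Q := by
            rw [hQ, abs_le]
            constructor <;> linarith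
          refine key (K / 2) ?_ ?_
          · refine (H.psi_in hμ _ hz.1 hz.2).trans ?_
            refine mul_le_mul_of_nonneg_left (Real.exp_le_exp.2 ?_) heC
            linarith
          · have h9 := le_abs_self u
            have h10 : s0 * u ≤ s0 * |u| := mul_le_mul_of_nonneg_left h9 hs0p.le
            have h11 : s0 * |u| ≤ s0 * Q := mul_le_mul_of_nonneg_left h8 hs0p.le
            rw [hK]
            linarith
        · -- far on the right
          have h3 : R * w < (u + κ) * w := by linarith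
          have h4 : R < u + κ := lt_of_mul_lt_mul_right h3 hw.le
          have h5 : κ + 1 + C5 < u := by rw [hR] at h4; linarith
          refine key (Δ * (u - κ) / 2) ?_ ?_
          · exact H.psi_far hC1 hμ _ (by linarith) (by linarith)
          · rw [abs_of_pos (by linarith)]
            have h6 : Δ = 4 * s0 := by rw [hs0]; ring
            rw [h6]
            have h7 : s0 / 2 * C5 ≤ s0 / 2 * u := mul_le_mul_of_nonneg_left (by linarith) (by linarith)
            linarith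
    · have h1 := H.psi_zero hμ _ hz
      have h2 : Real.exp (s0 * u) * Psi μ s θ (S + L') w y0 (j : ℤ) ≤ 0 :=
        mul_nonpos_of_nonneg_of_nonpos (Real.exp_pos _).le h1
      exact h2.trans (by positivity)
  have hsum : Real.exp 1 * ∑ j ∈ Finset.range (L' + 1),
      Real.exp (s0 / w * (j * w - v * L')) * Psi μ s θ (S + L') w y0 j ≤ Bc * Real.exp (-X) := by
    calc Real.exp 1 * ∑ j ∈ Finset.range (L' + 1),
        Real.exp (s0 / w * (j * w - v * L')) * Psi μ s θ (S + L') w y0 j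
        ≤ Real.exp 1 * ∑ j ∈ Finset.range (L' + 1),
          Real.exp 1 * C1 * (Real.exp (2 * s0 * κ) * Real.exp (-X)) *
            Real.exp (-(s0 / 2 * |-(v * L' / w) + j|)) :=
          mul_le_mul_of_nonneg_left (Finset.sum_le_sum hterm) (Real.exp_pos 1).le
      _ = Real.exp 1 * (Real.exp 1 * C1 * (Real.exp (2 * s0 * κ) * Real.exp (-X))) *
          ∑ j ∈ Finset.range (L' + 1), Real.exp (-(s0 / 2 * |-(v * L' / w) + j|)) := by
          rw [← Finset.mul_sum]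
          ring
      _ ≤ Real.exp 1 * (Real.exp 1 * C1 * (Real.exp (2 * s0 * κ) * Real.exp (-X))) * G := by
          refine mul_le_mul_of_nonneg_left ?_ (by positivity)
          rw [hG]
          exact sum_abs_le _ (by linarith) _
      _ = Bc * Real.exp (-X) := by
          rw [hBc]
          ring
  have h1 : Real.exp (-A) ≤ Real.exp (-(γ * L')) := Real.exp_le_exp.2 (by linarith)
  have h2 := Real.exp_pos (-A)
  have h3 := hcell.trans hsum
  linarith

/-! ### The maximum over the starts in a cell -/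

omit [IsProbabilityMeasure μ] in
theorem cmax_mem (η : Env) (t : ℤ) (n : ℕ) {w : ℕ} (hw : 1 ≤ w) (i i' : ℤ) :
    ∃ r : Fin w, cmax μ s η t n w i i' = cw μ s η t (i * w + r) n w i' := by
  have : Nonempty (Fin w) := ⟨⟨0, hw⟩⟩
  obtain ⟨r, hr⟩ := exists_eq_ciSup_of_finite (f := fun r : Fin w => cw μ s η t (i * w + r) n w i')
  exact ⟨r, hr.symm⟩

omit [IsProbabilityMeasure μ] in
theorem cw_nonneg (η : Env) (t x : ℤ) (n w : ℕ) (i : ℤ) : 0 ≤ cw μ s η t x n w i :=
  WS_nonneg _ _ _ _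

omit [IsProbabilityMeasure μ] in
theorem cmax_nonneg (η : Env) (t : ℤ) (n : ℕ) {w : ℕ} (hw : 1 ≤ w) (i i' : ℤ) :
    0 ≤ cmax μ s η t n w i i' := by
  obtain ⟨r, hr⟩ := cmax_mem (μ := μ) (s := s) η t n hw i i'
  rw [hr]
  exact cw_nonneg _ _ _ _ _ _

omit [IsProbabilityMeasure μ] in
theorem cmax_meas (t : ℤ) (n w : ℕ) (i i' : ℤ) :
    Measurable fun η : Env => cmax μ s η t n w i i' :=
  Measurable.iSup fun _ : Fin w => measurable_WS _ _ _

theorem cmax_int (hμ : Pool.Agent.W_7d29a1_h47.EM μ) (t : ℤ) (n : ℕ) {w : ℕ}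
    (hw : 1 ≤ w) (i i' : ℤ) {θ : ℝ} (h0 : 0 ≤ θ) :
    Integrable (fun η => cmax μ s η t n w i i' ^ θ) (law μ) := by
  have h1 : Integrable (fun η : Env => ∑ r : Fin w, cw μ s η t (i * w + r) n w i' ^ θ) (law μ) :=
    integrable_finsetSum _ fun _ _ => WS_rpow_integrable hμ _ n _ h0
  refine h1.mono' ((cmax_meas t n w i i').pow_const θ).aestronglyMeasurable
    (Filter.Eventually.of_forall fun η => ?_)
  rw [Real.norm_eq_abs, abs_of_nonneg (Real.rpow_nonneg (cmax_nonneg _ _ _ hw _ _) _)]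
  obtain ⟨r, hr⟩ := cmax_mem (μ := μ) (s := s) η t n hw i i'
  rw [hr]
  exact Finset.single_le_sum (f := fun r : Fin w => cw μ s η t (i * w + r) n w i' ^ θ)
    (fun r _ => Real.rpow_nonneg (cw_nonneg _ _ _ _ _ _) _) (Finset.mem_univ r)

/-! ### The wall -/

theorem wall_zero {C1 Δ κ : ℝ} (hC1 : 0 ≤ C1) (hΔ : 0 < Δ) (_hκ : 0 ≤ κ) :
    ∃ C c : ℝ, 0 ≤ C ∧ 0 < c ∧ ∀ (μ : Measure ℝ) [IsProbabilityMeasure μ] (s : ℝ),
      Pool.Agent.W_7d29a1_h47.EM μ → ∀ (θ v : ℝ) (w S L' : ℕ) (y0 : ℤ),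
      EdgeHyp μ s θ v κ Δ C1 w S L' y0 → ∀ (A' : ℝ) (x1 : ℤ), v * L' + A' * w ≤ x1 →
      (law μ).real {η | ∃ x x' : ℤ, x ≤ 0 ∧ x1 ≤ x' ∧
        Real.exp (-(c * A' / θ)) ≤ W μ s η (0, x) L' (x' - x)} ≤ C * Real.exp (-(c * A')) := by
  obtain ⟨c, hc⟩ : ∃ c : ℝ, c = Δ / 4 := ⟨_, rfl⟩
  have hc0 : 0 < c := by rw [hc]; positivity
  obtain ⟨q, hq⟩ : ∃ q : ℝ, q = Real.exp (-(Δ / 2)) := ⟨_, rfl⟩
  have hq0 : 0 < q := by rw [hq]; exact Real.exp_pos _
  have hq1 : q < 1 := by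
    rw [hq, ← Real.exp_zero]
    exact Real.exp_lt_exp.2 (by linarith)
  have h1q : 0 < 1 - q := by linarith
  obtain ⟨D, hD⟩ : ∃ D : ℝ, D = Real.exp 1 * (Real.exp 1 * C1) * Real.exp (Δ * (1 + κ) / 2) :=
    ⟨_, rfl⟩
  have hD0 : 0 ≤ D := by rw [hD]; positivity
  refine ⟨Real.exp (c * (κ + 2)) + D * (1 / (1 - q)) ^ 2, c, by positivity, hc0, ?_⟩
  intro μ _ s hμ θ v w S L' y0 H A' x1 hx1
  have hw : (0 : ℝ) < w := by exact_mod_cast H.w1
  have hwZ : (0 : ℤ) < w := by exact_mod_cast H.w1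
  have hθ := H.θ0
  rcases lt_or_ge A' (κ + 2) with hA | hA
  · -- trivial bound
    have h1 : (1 : ℝ) ≤ Real.exp (c * (κ + 2)) * Real.exp (-(c * A')) := by
      rw [← Real.exp_add, ← Real.exp_zero]
      refine Real.exp_le_exp.2 ?_
      have := mul_le_mul_of_nonneg_left hA.le hc0.le
      linarith
    have h2 : 0 ≤ D * (1 / (1 - q)) ^ 2 * Real.exp (-(c * A')) := by positivity
    refine measureReal_le_one.trans ?_
    rw [add_mul]
    linarith
  · -- the union over the cells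
    obtain ⟨i1, hi1⟩ : ∃ i1 : ℤ, i1 = x1 / w := ⟨_, rfl⟩
    obtain ⟨B, hB⟩ : ∃ B : ℕ, B = L' + x1.natAbs + 1 := ⟨_, rfl⟩
    have hsub : {η : Env | ∃ x x' : ℤ, x ≤ 0 ∧ x1 ≤ x' ∧
          Real.exp (-(c * A' / θ)) ≤ W μ s η (0, x) L' (x' - x)} ⊆
        ⋃ p ∈ Finset.range B ×ˢ Finset.range B,
          {η : Env | Real.exp (-(c * A')) ≤ cmax μ s η 0 L' w (-(p.1 : ℤ)) (i1 + p.2) ^ θ} := by
      rintro η ⟨x, x', hx, hx', hW⟩
      have hWpos : 0 < W μ s η (0, x) L' (x' - x) := (Real.exp_pos _).trans_le hW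
      have hr : 0 ≤ x' - x ∧ x' - x ≤ L' := by
        by_contra hcon
        rw [W_eq_zero η _ hcon] at hWpos
        exact lt_irrefl _ hWpos
      obtain ⟨i, hi⟩ : ∃ i : ℤ, i = x / w := ⟨_, rfl⟩
      obtain ⟨i', hi'⟩ : ∃ i' : ℤ, i' = x' / w := ⟨_, rfl⟩
      have hxd := Int.mul_ediv_add_emod x w
      have hxd' := Int.mul_ediv_add_emod x' w
      have hxr0 := Int.emod_nonneg x hwZ.ne'
      have hxr1 := Int.emod_lt_of_pos x hwZ
      have hxr0' := Int.emod_nonneg x' hwZ.ne'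
      have hxr1' := Int.emod_lt_of_pos x' hwZ
      rw [← hi] at hxd
      rw [← hi'] at hxd'
      have hi0 : i ≤ 0 := by
        by_contra hcon
        have h1 : (w : ℤ) * 1 ≤ w * i := mul_le_mul_of_nonneg_left (by omega) hwZ.le
        linarith
      have hii : i1 ≤ i' := by
        rw [hi1, hi']
        exact Int.ediv_le_ediv hwZ hx'
      have hnat : -(x1.natAbs : ℤ) ≤ x1 := by omega
      have hia : -i < B := by
        by_contra hcon
        have h1 : (w : ℤ) * (i + 1) ≤ w * (-((L' : ℤ) + x1.natAbs)) :=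
          mul_le_mul_of_nonneg_left (by omega) hwZ.le
        have h2 : (1 : ℤ) * ((L' : ℤ) + x1.natAbs) ≤ w * ((L' : ℤ) + x1.natAbs) :=
          mul_le_mul_of_nonneg_right (by omega) (by positivity)
        linarith [hr.2]
      have hib : i' - i1 < B := by
        have h1 : i' ≤ L' := by
          by_contra hcon
          have h2 : (w : ℤ) * (L' + 1) ≤ w * i' := mul_le_mul_of_nonneg_left (by omega) hwZ.le
          have h3 : (1 : ℤ) * ((L' : ℤ) + 1) ≤ w * ((L' : ℤ) + 1) :=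
            mul_le_mul_of_nonneg_right (by omega) (by positivity)
          linarith [hr.2]
        have h2 : -(x1.natAbs : ℤ) ≤ i1 := by
          have h3 := Int.mul_ediv_add_emod x1 w
          have h4 := Int.emod_lt_of_pos x1 hwZ
          rw [← hi1] at h3
          by_contra hcon
          have h5 : (w : ℤ) * (i1 + 1) ≤ w * (-(x1.natAbs : ℤ)) :=
            mul_le_mul_of_nonneg_left (by omega) hwZ.le
          have h6 : (1 : ℤ) * (x1.natAbs : ℤ) ≤ w * (x1.natAbs : ℤ) :=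
            mul_le_mul_of_nonneg_right (by omega) (by positivity)
          linarith
        omega
      have hcw : W μ s η (0, x) L' (x' - x) ≤ cmax μ s η 0 L' w i i' := by
        have hr' : (x % w).toNat < w := by omega
        have e1 : i * (w : ℤ) + (((⟨(x % w).toNat, hr'⟩ : Fin w) : ℕ) : ℤ) = x := by
          show i * (w : ℤ) + ((x % w).toNat : ℤ) = x
          rw [Int.toNat_of_nonneg hxr0]
          linarith
        have e2 : cw μ s η 0 x L' w i' ≤ cmax μ s η 0 L' w i i' := by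
          have h := le_ciSup (f := fun r : Fin w => cw μ s η 0 (i * w + r) L' w i')
            (Set.finite_range _).bddAbove ⟨(x % w).toNat, hr'⟩
          simp only [e1] at h
          exact h
        refine le_trans ?_ e2
        unfold cw WS
        refine Finset.single_le_sum (f := fun y => W μ s η (0, x) L' y)
          (fun y _ => W_nonneg _ _ _ _) (Finset.mem_Ico.2 ⟨?_, ?_⟩)
        · linarith
        · linarith
      refine Set.mem_iUnion₂.2 ⟨((-i).toNat, (i' - i1).toNat), ?_, ?_⟩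
      · rw [Finset.mem_product, Finset.mem_range, Finset.mem_range]
        constructor <;> simp only <;> omega
      · show Real.exp (-(c * A')) ≤
          cmax μ s η 0 L' w (-(((-i).toNat : ℕ) : ℤ)) (i1 + (((i' - i1).toNat : ℕ) : ℤ)) ^ θ
        rw [Int.toNat_of_nonneg (by omega), Int.toNat_of_nonneg (by omega)]
        rw [show -(-i) = i by ring, show i1 + (i' - i1) = i' by ring]
        have h1 : Real.exp (-(c * A')) = Real.exp (-(c * A' / θ)) ^ θ := by
          rw [← Real.exp_mul]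
          congr 1
          field_simp
        rw [h1]
        exact Real.rpow_le_rpow (Real.exp_pos _).le (hW.trans hcw) hθ.le
    have hP : ∀ p ∈ Finset.range B ×ˢ Finset.range B,
        (law μ).real {η : Env | Real.exp (-(c * A')) ≤
          cmax μ s η 0 L' w (-(p.1 : ℤ)) (i1 + p.2) ^ θ} ≤
        D * Real.exp (-(c * A')) * (q ^ p.1 * q ^ p.2) := by
      rintro ⟨a, b⟩ -
      show (law μ).real {η : Env | Real.exp (-(c * A')) ≤
          cmax μ s η 0 L' w (-(a : ℤ)) (i1 + b) ^ θ} ≤ D * Real.exp (-(c * A')) * (q ^ a * q ^ b)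
      have h1 := cmax_le (μ := μ) (s := s) hμ H.θ0 H.θ1 (n := L') H.w1 H.con 0 (-(a : ℤ)) (i1 + b)
      have hz : v * ((S + L' + S : ℕ) : ℝ) + (A' - 1 - κ + a + b) * w ≤
          zc w y0 (i1 + b - -(a : ℤ)) := by
        have h2 := (abs_le.1 (H.near (i1 + b - -(a : ℤ)))).1
        have h3 : (x1 : ℝ) ≤ i1 * w + w := by
          have h4 := Int.mul_ediv_add_emod x1 w
          have h5 := Int.emod_lt_of_pos x1 hwZ
          rw [← hi1] at h4
          have h6 : x1 ≤ i1 * w + w := by linarith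
          exact_mod_cast h6
        push_cast at h2 ⊢
        linarith
      have h2 := H.psi_far hC1 hμ _ (by
        have h3 : (0 : ℝ) ≤ a := Nat.cast_nonneg a
        have h4 : (0 : ℝ) ≤ b := Nat.cast_nonneg b
        linarith) hz
      have h3 : ∫ η, cmax μ s η 0 L' w (-(a : ℤ)) (i1 + b) ^ θ ∂(law μ) ≤
          Real.exp 1 * (Real.exp 1 * C1 * Real.exp (-(Δ * (A' - 1 - κ + a + b) / 2))) :=
        h1.trans (mul_le_mul_of_nonneg_left h2 (Real.exp_pos 1).le)
      have h4 := mul_meas_ge_le_integral_of_nonneg (μ := law μ)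
        (f := fun η => cmax μ s η 0 L' w (-(a : ℤ)) (i1 + b) ^ θ)
        (Filter.Eventually.of_forall fun η => Real.rpow_nonneg (cmax_nonneg η 0 L' H.w1 _ _) _)
        (cmax_int hμ 0 L' H.w1 _ _ hθ.le) (Real.exp (-(c * A')))
      have h5 : (law μ).real {η : Env | Real.exp (-(c * A')) ≤
          cmax μ s η 0 L' w (-(a : ℤ)) (i1 + b) ^ θ} ≤ Real.exp (c * A') *
          (Real.exp 1 * (Real.exp 1 * C1 * Real.exp (-(Δ * (A' - 1 - κ + a + b) / 2)))) := by
        have h6 := mul_le_mul_of_nonneg_left (h4.trans h3) (Real.exp_pos (c * A')).le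
        rw [← mul_assoc, ← Real.exp_add] at h6
        simpa using h6
      refine h5.trans (le_of_eq ?_)
      rw [hD, hq, ← Real.exp_nat_mul, ← Real.exp_nat_mul]
      have h6 : Δ = 4 * c := by rw [hc]; ring
      have h7 : Real.exp (c * A') * (Real.exp 1 * (Real.exp 1 * C1 *
          Real.exp (-(Δ * (A' - 1 - κ + a + b) / 2)))) = Real.exp 1 * (Real.exp 1 * C1) *
          (Real.exp (c * A') * Real.exp (-(Δ * (A' - 1 - κ + a + b) / 2))) := by ring
      have h8 : Real.exp 1 * (Real.exp 1 * C1) * Real.exp (Δ * (1 + κ) / 2) *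
          Real.exp (-(c * A')) * (Real.exp (a * (-(Δ / 2))) * Real.exp (b * (-(Δ / 2)))) =
          Real.exp 1 * (Real.exp 1 * C1) * (Real.exp (Δ * (1 + κ) / 2) * Real.exp (-(c * A')) *
          (Real.exp (a * (-(Δ / 2))) * Real.exp (b * (-(Δ / 2))))) := by ring
      rw [h7, h8, ← Real.exp_add, ← Real.exp_add, ← Real.exp_add, ← Real.exp_add]
      congr 2
      rw [h6]
      ring
    refine (measureReal_mono hsub (measure_ne_top _ _)).trans ?_
    refine (measureReal_biUnion_finset_le _ _).trans ?_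
    refine (Finset.sum_le_sum hP).trans ?_
    rw [← Finset.mul_sum, Finset.sum_product]
    have h9 : ∑ a ∈ Finset.range B, ∑ b ∈ Finset.range B, q ^ a * q ^ b ≤ (1 / (1 - q)) ^ 2 := by
      rw [← Finset.sum_mul_sum, sq]
      have h10 := geom_le hq0.le hq1 B
      have h11 : 0 ≤ ∑ j ∈ Finset.range B, q ^ j := Finset.sum_nonneg fun j _ => pow_nonneg hq0.le j
      exact mul_le_mul h10 h10 h11 (by positivity)
    have h12 : 0 ≤ D * Real.exp (-(c * A')) := by positivity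
    have h13 := mul_le_mul_of_nonneg_left h9 h12
    have h14 : 0 ≤ Real.exp (c * (κ + 2)) * Real.exp (-(c * A')) := by positivity
    rw [add_mul]
    simp only at h13 ⊢
    linarith

/-- THE WALL: all starts at time `t` on the left of `x0`, all ends on the right of `x0 + x1`. -/
theorem wall {C1 Δ κ : ℝ} (hC1 : 0 ≤ C1) (hΔ : 0 < Δ) (hκ : 0 ≤ κ) :
    ∃ C c : ℝ, 0 ≤ C ∧ 0 < c ∧ ∀ (μ : Measure ℝ) [IsProbabilityMeasure μ] (s : ℝ),
      Pool.Agent.W_7d29a1_h47.EM μ → ∀ (θ v : ℝ) (w S L' : ℕ) (y0 : ℤ),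
      EdgeHyp μ s θ v κ Δ C1 w S L' y0 → ∀ (A' : ℝ) (x1 t x0 : ℤ), v * L' + A' * w ≤ x1 →
      (law μ).real {η | ∃ x x' : ℤ, x ≤ x0 ∧ x0 + x1 ≤ x' ∧
        Real.exp (-(c * A' / θ)) ≤ W μ s η (t, x) L' (x' - x)} ≤ C * Real.exp (-(c * A')) := by
  obtain ⟨C, c, hC, hc, h⟩ := wall_zero hC1 hΔ hκ
  refine ⟨C, c, hC, hc, ?_⟩
  intro μ _ s hμ θ v w S L' y0 H A' x1 t x0 hx1
  refine le_trans (le_of_eq ?_) (h μ s hμ θ v w S L' y0 H A' x1 hx1)
  have hm : MeasurableSet {η : Env | ∃ x x' : ℤ, x ≤ 0 ∧ x1 ≤ x' ∧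
      Real.exp (-(c * A' / θ)) ≤ W μ s η (0, x) L' (x' - x)} := by
    have h1 : {η : Env | ∃ x x' : ℤ, x ≤ 0 ∧ x1 ≤ x' ∧
        Real.exp (-(c * A' / θ)) ≤ W μ s η (0, x) L' (x' - x)} =
        ⋃ x : ℤ, ⋃ x' : ℤ, {η : Env | x ≤ 0 ∧ x1 ≤ x' ∧
          Real.exp (-(c * A' / θ)) ≤ W μ s η (0, x) L' (x' - x)} := by
      ext η
      simp only [Set.mem_ofPred_eq, Set.mem_iUnion]
    rw [h1]
    refine MeasurableSet.iUnion fun x => MeasurableSet.iUnion fun x' => ?_
    by_cases h2 : x ≤ 0 ∧ x1 ≤ x'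
    · have h3 : {η : Env | x ≤ 0 ∧ x1 ≤ x' ∧
          Real.exp (-(c * A' / θ)) ≤ W μ s η (0, x) L' (x' - x)} =
          {η : Env | Real.exp (-(c * A' / θ)) ≤ W μ s η (0, x) L' (x' - x)} := by
        ext η
        simp only [Set.mem_ofPred_eq]
        exact ⟨fun h => h.2.2, fun h => ⟨h2.1, h2.2, h⟩⟩
      rw [h3]
      exact measurableSet_le measurable_const (measurable_W _ _ _)
    · have h3 : {η : Env | x ≤ 0 ∧ x1 ≤ x' ∧
          Real.exp (-(c * A' / θ)) ≤ W μ s η (0, x) L' (x' - x)} = ∅ := by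
        ext η
        simp only [Set.mem_ofPred_eq, Set.mem_empty_iff_false, iff_false]
        exact fun h => h2 ⟨h.1, h.2.1⟩
      rw [h3]
      exact MeasurableSet.empty
  rw [← real_sh (μ := μ) (t, x0) hm]
  congr 1
  ext η
  simp only [Set.mem_ofPred_eq, W_sh]
  constructor
  · rintro ⟨x, x', h1, h2, h3⟩
    refine ⟨x - x0, x' - x0, by omega, by omega, ?_⟩
    have e1 : ((0 : ℤ), x - x0) + (t, x0) = (t, x) := by
      refine Prod.ext ?_ ?_ <;> simp
    rw [e1, show x' - x0 - (x - x0) = x' - x by ring]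
    exact h3
  · rintro ⟨x, x', h1, h2, h3⟩
    refine ⟨x + x0, x' + x0, by omega, by omega, ?_⟩
    have e1 : ((0 : ℤ), x) + (t, x0) = (t, x + x0) := by
      refine Prod.ext ?_ ?_ <;> simp
    rw [e1] at h3
    rw [show x' + x0 - (x + x0) = x' - x by ring]
    exact h3

end

end Pool.Agent.W_7d29a1_h75g
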